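import Pool.Agent.H16.CS.Targets

/-! # CPS board, module MUB (helper69) -/

set_option autoImplicit false

open Polynomial

namespace Pool.Agent.H69.CS

open Pool.Agent.H16.CS

theorem sum_ms_finset {Ω : Type} [Field Ω] (A : Multiset Ω) (s : Finset ℕ) (f : ℕ → Ω → Ω) :
    (A.map fun x => ∑ i ∈ s, f i x).sum = ∑ i ∈ s, (A.map (f i)).sum := by
  induction A using Multiset.induction_on with
  | empty => simp
  | cons a A ih =>
    simp only [Multiset.map_cons, Multiset.sum_cons, ih, Finset.sum_add_distrib]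

theorem psm_eval {Ω : Type} [Field Ω] (A : Multiset Ω) (q : Polynomial Ω) :
    (A.map fun x => q.eval x).sum = ∑ i ∈ Finset.range (q.natDegree + 1), q.coeff i * psm A i := by
  have h : (fun x : Ω => q.eval x) =
      fun x => ∑ i ∈ Finset.range (q.natDegree + 1), q.coeff i * x ^ i := by
    funext x
    exact eval_eq_sum_range x
  rw [h, sum_ms_finset]
  refine Finset.sum_congr rfl fun i _ => ?_
  rw [psm, Multiset.sum_map_mul_left]

theorem sum_count {Ω : Type} [Field Ω] [DecidableEq Ω] (A : Multiset Ω) (g : Ω → Ω)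
    (hg : ∀ x ∈ A, x ≠ 1 → g x = 0) : (A.map g).sum = (A.count 1 : Ω) * g 1 := by
  induction A using Multiset.induction_on with
  | empty => simp
  | cons a A ih =>
    rw [Multiset.map_cons, Multiset.sum_cons,
      ih fun x hx => hg x (Multiset.mem_cons_of_mem hx)]
    by_cases h : a = 1
    · subst h
      rw [Multiset.count_cons_self]
      push_cast
      ring
    · rw [Multiset.count_cons_of_ne (Ne.symm h), hg a (Multiset.mem_cons_self a A) h, zero_add]

theorem mub : T_MUB := by
  classical
  intro Ω _ _ A B c h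
  set S : Finset Ω := ((A + B).toFinset.erase 0).erase 1 with hS
  set q : Polynomial Ω := X * ∏ z ∈ S, (X - C z) with hq
  have hq0 : q.coeff 0 = 0 := by
    rw [hq, mul_comm, coeff_mul_X_zero]
  have hq1 : q.eval 1 ≠ 0 := by
    rw [hq, eval_mul, eval_X, one_mul, eval_prod]
    refine Finset.prod_ne_zero_iff.2 fun z hz => ?_
    rw [eval_sub, eval_X, eval_C, sub_ne_zero]
    exact fun h => (Finset.ne_of_mem_erase hz) h.symm
  have hv : ∀ x ∈ A + B, x ≠ 1 → q.eval x = 0 := by
    intro x hx hx1
    rw [hq, eval_mul, eval_X, eval_prod]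
    by_cases h0 : x = 0
    · rw [h0, zero_mul]
    · have : x ∈ S := Finset.mem_erase.2 ⟨hx1, Finset.mem_erase.2 ⟨h0, Multiset.mem_toFinset.2 hx⟩⟩
      rw [Finset.prod_eq_zero this, mul_zero]
      rw [eval_sub, eval_X, eval_C, sub_self]
  have hA := sum_count A (fun x => q.eval x) fun x hx => hv x (Multiset.mem_add.2 (Or.inl hx))
  have hB := sum_count B (fun x => q.eval x) fun x hx => hv x (Multiset.mem_add.2 (Or.inr hx))
  rw [psm_eval] at hA hB
  have hc : ∑ i ∈ Finset.range (q.natDegree + 1), q.coeff i * psm A i -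
      ∑ i ∈ Finset.range (q.natDegree + 1), q.coeff i * psm B i = (c : Ω) * q.eval 1 := by
    rw [← Finset.sum_sub_distrib, eval_eq_sum_range, Finset.mul_sum]
    refine Finset.sum_congr rfl fun i _ => ?_
    rcases Nat.eq_zero_or_pos i with hi | hi
    · subst hi
      rw [hq0]
      ring
    · rw [← mul_sub, h i hi, one_pow]
      ring
  rw [hA, hB, ← sub_mul] at hc
  have hc2 := mul_right_cancel₀ hq1 hc
  have hc3 : c = (A.count 1 : ℚ) - (B.count 1 : ℚ) := by
    have : ((((A.count 1 : ℚ) - (B.count 1 : ℚ)) : ℚ) : Ω) = (c : Ω) := by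
      push_cast
      exact hc2
    exact (Rat.cast_injective this).symm
  have h1 : (A.count 1 : ℚ) ≤ A.card := by exact_mod_cast Multiset.count_le_card 1 A
  have h2 : (B.count 1 : ℚ) ≤ B.card := by exact_mod_cast Multiset.count_le_card 1 B
  have h3 : (0 : ℚ) ≤ A.count 1 := Nat.cast_nonneg _
  have h4 : (0 : ℚ) ≤ B.count 1 := Nat.cast_nonneg _
  rw [hc3]
  constructor <;> linarith

end Pool.Agent.H69.CS
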